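import Pool.Agent.Helper61.P3.St4

/-!
# Project P3 (MP_cb927e_an), module MPT: the alternatives at a point
-/

set_option autoImplicit false

open MeasureTheory Set Filter Topology
open scoped ENNReal RealInnerProductSpace

namespace Pool.Agent.Helper16.P3

open Pool.Agent.Helper61.P3 Pool.Agent.Helper20.RG Pool.Agent.Helper20.EQ
open Pool.Agent.Helper68.LM (Pl BB Bd Av HL ft fm DQ)
open Pool.Agent.Helper68.EP (elt GapP)

private theorem Vs_pos (s : ℕ) : 0 < Vs s := by unfold Vs; positivity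

private theorem Vs_anti {s t : ℕ} (h : s ≤ t) : Vs t ≤ Vs s := by
  unfold Vs
  have h1 : (s : ℝ) ≤ t := by exact_mod_cast h
  gcongr

private theorem Vs_le (s : ℕ) : Vs s ≤ 1 / 16 := by
  have := Vs_anti (Nat.zero_le s)
  unfold Vs at this ⊢
  norm_num at this ⊢
  exact this

/-- a large chord is large at all lengths or not -/
private theorem hh_sub (c : Pl) (φ τ : ℝ → ℝ) (u ρ : ℕ) (k : ℤ) (g : Pl → ℝ) (x : Pl) :
    ((Hh c φ τ u ρ k g x).ncard : ℝ) ≤ ((NP c φ τ u (et ρ) k g x).ncard : ℝ) +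
      ((HP c φ τ u (et ρ) k g x).ncard : ℝ) := by
  have hsub : Hh c φ τ u ρ k g x ⊆ NP c φ τ u (et ρ) k g x ∪ HP c φ τ u (et ρ) k g x := by
    intro j hj
    obtain ⟨hj1, hj2⟩ := hj
    by_cases h : ∃ w ≤ 2 ^ (u / 8), |Zc c φ τ u w k j g x| < et ρ / 2
    · left
      exact ⟨hj1, hj2, h⟩
    · right
      push Not at h
      exact ⟨hj1, h⟩
  have hfin : (NP c φ τ u (et ρ) k g x ∪ HP c φ τ u (et ρ) k g x).Finite := by
    refine (Set.finite_Iio (2 ^ u)).subset ?_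
    rintro j (hj | hj)
    · exact hj.1
    · exact hj.1
  have h1 := (ncard_le_ncard hsub hfin).trans (ncard_union_le _ _)
  exact_mod_cast h1

theorem hMPT (hPG3 : Pool.Agent.Helper61.P3.StPG3) (hTYP : Pool.Agent.Helper61.P3.StTYP) :
    Pool.Agent.Helper61.P3.StMPT := by
  intro φ τ c hG U₁ k l f x hU hf hf0 hsum
  have ty : ∀ (V : ℝ) (u : ℕ), 0 < V → ENNReal.ofReal V ≤ HtM c φ τ 10000 u k l f x →
      ∃ n ρ : ℕ, TY c φ τ V u n ρ k l f x := fun V u hV h => hTYP φ τ c hG V u k l f x hV hf hf0 h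
  have small : ∀ (V : ℝ) (u : ℕ), 2 ≤ u → Vs (8 * U₁) ≤ V →
      ENNReal.ofReal V ≤ HtM c φ τ 10000 u k l f x →
      ∃ u n ρ : ℕ, 2 ≤ u ∧ TY c φ τ (Vs (8 * U₁)) u n ρ k l f x := by
    intro V u hu hV h
    obtain ⟨n, ρ, hT⟩ := ty _ u (Vs_pos _) ((ENNReal.ofReal_le_ofReal hV).trans h)
    exact ⟨u, n, ρ, hu, hT⟩
  rcases hPG3 (fun u => HtM c φ τ 10000 u k l f x) hsum with ⟨i, hi, h⟩ | ⟨i, s, hi, hs1, hs, h1, h2⟩ |
    ⟨i, s, hi, hs, h1, h2⟩
  · exact Or.inl (small _ i hi (Vs_le _) h)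
  · by_cases hsU : s < U₁
    · exact Or.inl (small _ i hi (Vs_anti (by omega)) h1)
    · by_cases hiU : i < U₁
      · exact Or.inl (small _ i hi (Vs_anti (by omega)) h1)
      · obtain ⟨n, ρ, hT⟩ := ty _ i (Vs_pos _) h1
        obtain ⟨n', ρ', hT'⟩ := ty _ (i + s) (Vs_pos _) h2
        by_cases hn : s < 40000 * n
        · exact Or.inr (Or.inl ⟨s, i, n, ρ, by omega, hs, hn, hT⟩)
        · by_cases hn' : s < 40000 * n'
          · exact Or.inr (Or.inl ⟨s, i + s, n', ρ', by omega, by omega, hn', hT'⟩)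
          · exact Or.inr (Or.inr (Or.inl ⟨s, i, n, n', ρ, ρ', by omega, by omega, hs, by omega,
              by omega, hT, hT'⟩))
  · by_cases hiU : i < U₁
    · exact Or.inl (small _ i hi (Vs_anti (by omega)) h1)
    · obtain ⟨n, ρ, hn, hT⟩ := ty _ i (Vs_pos _) h1
      have h3 := hT.trans (hh_sub c φ τ i ρ k (lev f (l - 1 + n)) x)
      by_cases h4 : mt (Vs i) i n ρ / 2 ≤ ((NP c φ τ i (et ρ) k (lev f (l - 1 + n)) x).ncard : ℝ)
      · exact Or.inr (Or.inr (Or.inr (Or.inl ⟨i, n, ρ, by omega, hn, h4⟩)))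
      · obtain ⟨n', ρ', hT'⟩ := ty _ (i + s) (Vs_pos _) h2
        refine Or.inr (Or.inr (Or.inr (Or.inr ⟨s, i, n, n', ρ, ρ', by omega, hs, hn, ?_, hT'⟩)))
        push Not at h4
        linarith

end Pool.Agent.Helper16.P3
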