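import Pool.Agent.Helper61.P3.St2

/-!
# Project P3 (MP_cb927e_an), module RDT: the ridge theorem in the plane
-/

set_option autoImplicit false

open MeasureTheory Set Filter Topology
open scoped ENNReal RealInnerProductSpace

namespace Pool.Agent.Helper16.P3

open Pool.Agent.Helper61.P3 Pool.Agent.Helper20.RG Pool.Agent.Helper20.EQ
open Pool.Agent.Helper68.LM (Pl BB Bd Av HL ft fm DQ)
open Pool.Agent.Helper68.EP (elt GapP)

/-- Interchange of a finite sum and a sum. -/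
private theorem tsum_sum {ι κ : Type} (s : Finset ι) (f : κ → ι → ℝ≥0∞) :
    ∑' n, ∑ i ∈ s, f n i = ∑ i ∈ s, ∑' n, f n i :=
  Summable.tsum_finsetSum fun _ _ => ENNReal.summable

theorem hRDT (hRDN : Pool.Agent.Helper61.P3.StRDN) (hOVL : Pool.Agent.Helper61.P3.StOVL) :
    Pool.Agent.Helper61.P3.StRDT := by
  obtain ⟨C, hC, hR⟩ := hRDN
  obtain ⟨hO1, -, hO3, -⟩ := hOVL
  refine ⟨26 * C, by positivity, ?_⟩
  intro N s o b Et Er p ℓ k L₂ D m nst δ i₀ v₀ v₁ W R h1 h2 h3 hL hi₀ hkp hpl h4 h5 h6 h7 h8 h9 h10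
    hδ h11 h12 h13 hD h14 h15
  have hm : 0 < m := by linarith
  -- the cover
  have hcov : volume R ≤ ∑' n : ℤ × ℤ, volume (R ∩ Sq (zg L₂ n) (L₂ / 2)) := by
    refine (measure_mono ?_).trans (measure_iUnion_le _)
    intro x hx
    obtain ⟨n, hn⟩ := hO1 L₂ hL x
    exact mem_iUnion.2 ⟨n, hx, hn⟩
  -- the local theorem
  have hloc : ∀ n : ℤ × ℤ, volume (R ∩ Sq (zg L₂ n) (L₂ / 2)) ≤
      ENNReal.ofReal (C * D / m ^ 3 * (2 : ℝ) ^ v₀) *
        ({n : ℤ × ℤ | (R ∩ Sq (zg L₂ n) (L₂ / 2)).Nonempty}.indicator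
          (fun n => ∑ j ∈ Finset.range N, volume (Er j ∩ Sq (zg L₂ n) (12 * L₂))) n) +
      ENNReal.ofReal (C * D ^ 2 / m ^ 4) * ∑ j ∈ Finset.range N, ∑ v ∈ Finset.Icc v₀ v₁,
        (if i₀ ≤ W j v then ENNReal.ofReal ((2 : ℝ) ^ v) * ∑ i ∈ Finset.range 2,
          LE (s j) (gk i (o j)) (m / (125 * D)) (k - (W j v : ℤ)) ℓ (b j) (zg L₂ n) L₂ else 0) := by
    intro n
    by_cases hne : (R ∩ Sq (zg L₂ n) (L₂ / 2)).Nonempty
    · rw [indicator_of_mem (show n ∈ {n : ℤ × ℤ | (R ∩ Sq (zg L₂ n) (L₂ / 2)).Nonempty} from hne)]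
      refine hR N s o b Et Er (zg L₂ n) p ℓ k L₂ D m nst δ i₀ v₀ v₁ W _ h1 h2 ?_ hL hi₀ hkp hpl h4 h5
        h6 h7 h8 h9 h10 hδ h11 h12 h13 hD h14 inter_subset_right fun x hx => h15 x hx.1
      intro j hj y hy y' hy' hyy
      refine h3 j hj y y' ?_ hyy
      have e1 := hy.1
      have e2 := hy'.1
      rw [abs_le] at e1 e2 ⊢
      constructor <;> linarith [e1.1, e1.2, e2.1, e2.2]
    · rw [not_nonempty_iff_eq_empty.1 hne, measure_empty]
      exact zero_le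
  -- sum of the energies
  have hen : ∑' n : ℤ × ℤ, ∑ j ∈ Finset.range N, ∑ v ∈ Finset.Icc v₀ v₁,
        (if i₀ ≤ W j v then ENNReal.ofReal ((2 : ℝ) ^ v) * ∑ i ∈ Finset.range 2,
          LE (s j) (gk i (o j)) (m / (125 * D)) (k - (W j v : ℤ)) ℓ (b j) (zg L₂ n) L₂ else 0) ≤
      26 * ∑ j ∈ Finset.range N, ∑ v ∈ Finset.Icc v₀ v₁, (if i₀ ≤ W j v then
        ENNReal.ofReal ((2 : ℝ) ^ v) * ∑ i ∈ Finset.range 2,
          EN (s j) (gk i (o j)) (m / (125 * D)) (k - (W j v : ℤ)) ℓ (b j) else 0) := by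
    rw [tsum_sum, Finset.mul_sum]
    refine Finset.sum_le_sum fun j _ => ?_
    rw [tsum_sum, Finset.mul_sum]
    refine Finset.sum_le_sum fun v _ => ?_
    by_cases hv : i₀ ≤ W j v
    · simp only [if_pos hv]
      rw [ENNReal.tsum_mul_left, tsum_sum, mul_left_comm]
      have hs : ∑ i ∈ Finset.range 2, ∑' n : ℤ × ℤ,
          LE (s j) (gk i (o j)) (m / (125 * D)) (k - (W j v : ℤ)) ℓ (b j) (zg L₂ n) L₂ ≤
          26 * ∑ i ∈ Finset.range 2,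
            EN (s j) (gk i (o j)) (m / (125 * D)) (k - (W j v : ℤ)) ℓ (b j) := by
        rw [Finset.mul_sum]
        exact Finset.sum_le_sum fun i _ => hO3 _ _ _ _ _ _ _ hL
      exact mul_le_mul_right hs _
    · simp only [if_neg hv]
      rw [tsum_zero, mul_zero]
  have hcoef : ∀ x : ℝ, 0 ≤ x → ENNReal.ofReal x * 26 ≤ ENNReal.ofReal (26 * x) := by
    intro x hx
    rw [mul_comm 26 x, ENNReal.ofReal_mul hx]
    simp
  calc volume R ≤ ∑' n : ℤ × ℤ, volume (R ∩ Sq (zg L₂ n) (L₂ / 2)) := hcov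
    _ ≤ ∑' n : ℤ × ℤ, (ENNReal.ofReal (C * D / m ^ 3 * (2 : ℝ) ^ v₀) *
        ({n : ℤ × ℤ | (R ∩ Sq (zg L₂ n) (L₂ / 2)).Nonempty}.indicator
          (fun n => ∑ j ∈ Finset.range N, volume (Er j ∩ Sq (zg L₂ n) (12 * L₂))) n) +
      ENNReal.ofReal (C * D ^ 2 / m ^ 4) * ∑ j ∈ Finset.range N, ∑ v ∈ Finset.Icc v₀ v₁,
        (if i₀ ≤ W j v then ENNReal.ofReal ((2 : ℝ) ^ v) * ∑ i ∈ Finset.range 2,
          LE (s j) (gk i (o j)) (m / (125 * D)) (k - (W j v : ℤ)) ℓ (b j) (zg L₂ n) L₂ else 0)) :=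
        ENNReal.tsum_le_tsum hloc
    _ = ENNReal.ofReal (C * D / m ^ 3 * (2 : ℝ) ^ v₀) *
        (∑' n : ℤ × ℤ, {n : ℤ × ℤ | (R ∩ Sq (zg L₂ n) (L₂ / 2)).Nonempty}.indicator
          (fun n => ∑ j ∈ Finset.range N, volume (Er j ∩ Sq (zg L₂ n) (12 * L₂))) n) +
      ENNReal.ofReal (C * D ^ 2 / m ^ 4) * ∑' n : ℤ × ℤ, ∑ j ∈ Finset.range N, ∑ v ∈ Finset.Icc v₀ v₁,
        (if i₀ ≤ W j v then ENNReal.ofReal ((2 : ℝ) ^ v) * ∑ i ∈ Finset.range 2,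
          LE (s j) (gk i (o j)) (m / (125 * D)) (k - (W j v : ℤ)) ℓ (b j) (zg L₂ n) L₂ else 0) := by
        rw [ENNReal.tsum_add, ENNReal.tsum_mul_left, ENNReal.tsum_mul_left]
    _ ≤ _ := by
        refine add_le_add ?_ ?_
        · refine mul_le_mul_left (ENNReal.ofReal_le_ofReal ?_) _
          have : 0 ≤ C * D / m ^ 3 * (2 : ℝ) ^ v₀ := by positivity
          calc C * D / m ^ 3 * (2 : ℝ) ^ v₀ ≤ 26 * (C * D / m ^ 3 * (2 : ℝ) ^ v₀) := by linarith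
            _ = 26 * C * D / m ^ 3 * (2 : ℝ) ^ v₀ := by ring
        · refine (mul_le_mul_right hen _).trans ?_
          rw [← mul_assoc]
          refine mul_le_mul_left ((hcoef _ (by positivity)).trans (le_of_eq ?_)) _
          congr 1
          ring

end Pool.Agent.Helper16.P3
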